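import Mathlib
import Pool.Agent.Run7.h858.CoordDefs
import Pool.Agent.Run7.h858.CoordChain
import Pool.Agent.Run7.h858.CoordSmooth

/-!
A homeomorphism of Euclidean space is approximable by compositions of homeomorphisms that change
one coordinate only if and only if it is approximable by diffeomorphisms, and every
diffeomorphism of class `C^1` agrees on each bounded set with such a composition.
-/

set_option autoImplicit false

namespace Pool.Agent.Results.MP_0907b2_gt.CoordinateVsSmooth

open Run7.h858.Coord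

theorem result (n : ℕ) :
    (∀ k : ℕ∞, 1 ≤ k → ∀ h : E n ≃ₜ E n,
      Approximable (Subgroup.closure (SA n)) h ↔ Approximable (Diffeo n k) h) ∧
    (∀ g ∈ Diffeo n 1, ∀ B : Set (E n), Bornology.IsBounded B →
      ∃ s ∈ Subgroup.closure (SA n), ∀ p ∈ B, s p = g p) := by
  have hex : ∀ g ∈ Diffeo n 1, ∀ B : Set (E n), Bornology.IsBounded B →
      ∃ s ∈ Subgroup.closure (SA n), ∀ p ∈ B, s p = g p := by
    intro g hg B hB
    exact exact_on_bounded g (by exact_mod_cast hg.1) (by exact_mod_cast hg.2) B hB
  refine ⟨fun k hk h => ⟨fun hh => ?_, fun hh => ?_⟩, hex⟩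
  · refine approx_mono (G₁ := Diffeo n ⊤) ?_ (approx_trans (fun g hg => ?_) hh)
    · intro g hg
      exact ⟨hg.1.of_le (by exact_mod_cast le_top), hg.2.of_le (by exact_mod_cast le_top)⟩
    · exact approx_closure approx_SA inv_mem_SA hg
  · refine approx_trans (fun g hg => ?_) hh
    intro B hB ε hε
    have hg1 : g ∈ Diffeo n 1 :=
      ⟨hg.1.of_le (by exact_mod_cast hk), hg.2.of_le (by exact_mod_cast hk)⟩
    obtain ⟨s, hs, h1⟩ := hex g hg1 B hB
    exact ⟨s, hs, 0, hε, fun p hp => by rw [h1 p hp, dist_self]⟩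

end Pool.Agent.Results.MP_0907b2_gt.CoordinateVsSmooth
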