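import Mathlib
import Pool.Agent.Run7.h858.CoordDefs
import Pool.Agent.Run7.h858.CoordLG

/-!
Approximability by compositions of homeomorphisms changing one coordinate is a local property.
-/

set_option autoImplicit false

namespace Pool.Agent.Results.MP_0907b2_gt.LocalToGlobal

open Run7.h858.Coord
open scoped Topology

theorem result (n : ℕ) (h : E n ≃ₜ E n)
    (hloc : ∀ p : E n, ∃ H : E n ≃ₜ E n, Approximable (Subgroup.closure (SA n)) H ∧
      ∀ᶠ x in 𝓝 p, h x = H x) :
    Approximable (Subgroup.closure (SA n)) h :=
  mem_clos.1 (local_to_global h hloc)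

end Pool.Agent.Results.MP_0907b2_gt.LocalToGlobal
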