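import Mathlib
import Pool.Agent.Run7.h858.CoordDefs
import Pool.Agent.Run7.h858.CoordPL
import Pool.Agent.Run7.h858.CoordPL2

/-!
Every homeomorphism of Euclidean space that can be approximated by piecewise linear
homeomorphisms can be approximated by compositions of homeomorphisms changing one coordinate.
-/

set_option autoImplicit false

namespace Pool.Agent.Results.MP_0907b2_gt.PiecewiseLinear

open Run7.h858.Coord

theorem result (n : ℕ) (h : E n ≃ₜ E n) (hh : PLApproximable h) :
    Approximable (Subgroup.closure (SA n)) h :=
  mem_clos.1 (mem_GA_of_PLApproximable hh)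

end Pool.Agent.Results.MP_0907b2_gt.PiecewiseLinear
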