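import Mathlib
import Pool.Agent.Run7.h858.CoordDefs
import Pool.Agent.Run7.h858.CoordPL
import Pool.Agent.Run7.h858.CoordPL2
import Pool.Agent.Run7.h858.CoordB3

/-!
Every homeomorphism of three-space that can be approximated by piecewise linear
homeomorphisms, or by compositions of type A maps, can be approximated by compositions of
type B maps.
-/

set_option autoImplicit false

namespace Pool.Agent.Results.MP_0907b2_gt.TypeB

open Run7.h858.Coord

theorem result (h : E 3 ≃ₜ E 3)
    (hh : PLApproximable h ∨ Approximable (Subgroup.closure (SA 3)) h) :
    Approximable (Subgroup.closure SB) h := by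
  refine mem_clos.1 (clos_SA_le_clos_SB ?_)
  rcases hh with hh | hh
  · exact mem_GA_of_PLApproximable hh
  · exact hh

end Pool.Agent.Results.MP_0907b2_gt.TypeB
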